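import Pool.Agent.helper19.QP.SpecM

/-! # Project qm (Theorem Q**): row OR2 (the orbit of the trace) -/

set_option autoImplicit false

open Polynomial Pool.Agent.helper7.IG

noncomputable section

namespace Pool.Agent.QP

theorem OR2 (hIDX : IDX_stmt) (hORF : ORF_stmt) : OR2_stmt := by
  classical
  intro N hN hsq
  have h3N : Odd (3 * N) := (by decide : Odd 3).mul hN
  obtain ⟨C, hC⟩ := hIDX (3 * N) h3N
  refine ⟨C, fun F l hF hl hl2 hl3 hNl => ?_⟩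
  obtain ⟨B0, hB0, hO⟩ := hORF F N l hF hN hsq hl hl2 hl3 hNl
  refine ⟨B0, hB0, fun Q G a b Φ B hB hBB => ?_⟩
  obtain ⟨T, hT, hTm⟩ := hC Φ B hB
  let S : Finset Φ.A := T.image fun t =>
    if h : ∃ g : Φ.A ≃ₐ[kk] Φ.A, g (Φ.D (B, 1)) = Φ.D (B, 1) ∧ tup Φ B (3 * N) g = t then
      (Classical.choose h) (Φ.cl (Y2 (PN N F) Q G a b l B)) else 0
  have hS : S.card ≤ C := le_trans Finset.card_image_le hT
  have hmem : ∀ g : Φ.A ≃ₐ[kk] Φ.A, g (Φ.D (B, 1)) = Φ.D (B, 1) →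
      g (Φ.cl (Y2 (PN N F) Q G a b l B)) ∈ S := by
    intro g' hg'
    have hex : ∃ g : Φ.A ≃ₐ[kk] Φ.A, g (Φ.D (B, 1)) = Φ.D (B, 1) ∧
        tup Φ B (3 * N) g = tup Φ B (3 * N) g' := ⟨g', hg', rfl⟩
    refine Finset.mem_image.2 ⟨tup Φ B (3 * N) g', hTm g' hg', ?_⟩
    rw [dif_pos hex]
    obtain ⟨hg1, hg2⟩ := Classical.choose_spec hex
    set g := Classical.choose hex
    have hfx : FxN Φ (g'.trans g.symm) B (3 * N) := by
      intro M η hM hη
      have h1 := congrFun hg2 (M, η)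
      unfold tup at h1
      rw [if_pos ⟨hM, hη⟩, if_pos ⟨hM, hη⟩] at h1
      rw [AlgEquiv.trans_apply, ← h1, AlgEquiv.symm_apply_apply]
    have hu := hO Q G a b Φ (g'.trans g.symm) B hB hBB hfx
    have h2 : g' (Φ.cl (Y2 (PN N F) Q G a b l B)) = g (Φ.cl (Y2 (PN N F) Q G a b l B)) := by
      rw [AlgEquiv.trans_apply] at hu
      have h3 := congrArg g hu
      rw [AlgEquiv.apply_symm_apply] at h3
      exact h3
    exact h2.symm
  refine ⟨S.filter fun o => ∃ g : Φ.A ≃ₐ[kk] Φ.A, g (Φ.D (B, 1)) = Φ.D (B, 1) ∧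
    o = g (Φ.cl (Y2 (PN N F) Q G a b l B)), le_trans (Finset.card_filter_le _ _) hS, fun o => ?_⟩
  rw [Finset.mem_filter]
  constructor
  · exact fun h => h.2
  · rintro ⟨g, hg, rfl⟩
    exact ⟨hmem g hg, g, hg, rfl⟩

end Pool.Agent.QP
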