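import Pool.Agent.helper30.QP.SpecC

/-!
# QP, row DWN: if `sig e 1 F` is modular, so is `F`
-/

set_option autoImplicit false

open Polynomial Pool.Agent.helper7.IG

noncomputable section

namespace Pool.Agent.QP

/-- The Laurent series algebraic over `kk(Z)`. -/
def DWN_A (Z : LL) : IntermediateField kk LL :=
  (algebraicClosure (IntermediateField.adjoin kk {Z}) LL).restrictScalars kk

theorem DWN_mem {Z F : LL} : F ∈ DWN_A Z ↔ IsAlgebraic (IntermediateField.adjoin kk {Z}) F := by
  unfold DWN_A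
  rw [IntermediateField.mem_restrictScalars, mem_algebraicClosure_iff]

theorem DWN_self (Z : LL) : Z ∈ DWN_A Z := by
  rw [DWN_mem]
  have h : Z ∈ IntermediateField.adjoin kk {Z} := IntermediateField.mem_adjoin_simple_self _ _
  have := isAlgebraic_algebraMap (R := IntermediateField.adjoin kk {Z}) (A := LL) ⟨Z, h⟩
  exact this

theorem DWN_closed {Z F : LL} (h : IsAlgebraic (DWN_A Z) F) : F ∈ DWN_A Z := by
  rw [DWN_mem]
  have h2 : Algebra.IsAlgebraic (IntermediateField.adjoin kk {Z})
      (algebraicClosure (IntermediateField.adjoin kk {Z}) LL) := inferInstance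
  have h3 : IsAlgebraic (algebraicClosure (IntermediateField.adjoin kk {Z}) LL) F := h
  exact IsAlgebraic.restrictScalars (IntermediateField.adjoin kk {Z}) h3

theorem DWN_of_root {Z F : LL} (P : Polynomial LL) (hP : P ≠ 0) (hc : ∀ i, P.coeff i ∈ DWN_A Z)
    (h : P.eval F = 0) : F ∈ DWN_A Z := by
  apply DWN_closed
  have hl : P ∈ Polynomial.lifts (algebraMap (DWN_A Z) LL) := by
    rw [Polynomial.lifts_iff_coeff_lifts]
    intro n
    exact ⟨⟨P.coeff n, hc n⟩, rfl⟩
  obtain ⟨Q, hQ⟩ := (Polynomial.mem_lifts _).mp hl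
  refine ⟨Q, ?_, ?_⟩
  · rintro rfl
    rw [Polynomial.map_zero] at hQ
    exact hP hQ.symm
  · rw [Polynomial.aeval_def, ← Polynomial.eval_map, hQ, h]

/-- If `DDk` is algebraic over `kk(Z)` then all modular functions are. -/
theorem DWN_le {Z : LL} (h : DDk ∈ DWN_A Z) {F : LL} (hF : F ∈ MM) : F ∈ DWN_A Z := by
  have hadj : IntermediateField.adjoin kk {DDk} ≤ DWN_A Z := by
    rw [IntermediateField.adjoin_le_iff]
    intro y hy
    rw [Set.mem_singleton_iff] at hy
    rw [hy]
    exact h
  rw [mem_MM] at hF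
  obtain ⟨P, hP0, hP⟩ := hF
  refine DWN_of_root (P.map (algebraMap (IntermediateField.adjoin kk {DDk}) LL)) ?_ ?_ ?_
  · rw [Ne, Polynomial.map_eq_zero_iff (algebraMap (IntermediateField.adjoin kk {DDk}) LL).injective]
    exact hP0
  · intro i
    rw [Polynomial.coeff_map]
    exact hadj (P.coeff i).2
  · rw [Polynomial.eval_map_algebraMap, hP]

theorem DWN_D (hPSI : PSI_stmt) {p : ℕ} (hp : p.Prime) (hp2 : p ≠ 2) :
    DDk ∈ DWN_A (sig p 1 DDk) := by
  obtain ⟨Ψ, hmon, -, -, hΨ⟩ := hPSI p hp hp2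
  obtain ⟨ω, hω⟩ := exists_primitive p (hp.odd_of_ne_two hp2)
  have hroot : (Ψ.map (Polynomial.aeval (R := kk) (sig p 1 DDk)).toRingHom).eval
      (sig 1 (ω ^ 0) DDk) = 0 := by
    rw [hΨ ω hω, Polynomial.eval_mul, Polynomial.eval_prod,
      Finset.prod_eq_zero (Finset.mem_range.mpr hp.pos) (by simp), mul_zero]
  rw [pow_zero, sig_one] at hroot
  refine DWN_of_root _ (hmon.map _).ne_zero ?_ hroot
  intro i
  rw [Polynomial.coeff_map]
  have h := Polynomial.aeval_algebraMap_apply LL (⟨sig p 1 DDk, DWN_self _⟩ : DWN_A (sig p 1 DDk))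
    (Ψ.coeff i)
  have h2 : (Polynomial.aeval (R := kk) (sig p 1 DDk)).toRingHom (Ψ.coeff i) =
      ((Polynomial.aeval (⟨sig p 1 DDk, DWN_self _⟩ : DWN_A (sig p 1 DDk)) (Ψ.coeff i) :
        DWN_A (sig p 1 DDk)) : LL) := h
  rw [h2]
  exact SetLike.coe_mem _

theorem DWN_prime (hPSI : PSI_stmt) {p : ℕ} (hp : p.Prime) (hp2 : p ≠ 2) {F : LL}
    (hF : sig p 1 F ∈ MM) : F ∈ MM := by
  have h1 := DWN_le (DWN_D hPSI hp hp2) hF
  rw [DWN_mem] at h1
  set K := IntermediateField.adjoin kk {sig p 1 DDk} with hK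
  obtain ⟨P, hP0, hP⟩ := h1
  have hmap : (IntermediateField.adjoin kk {DDk}).map (sig p 1) = K := by
    rw [IntermediateField.adjoin_map, Set.image_singleton]
  have hlift : (P.map (algebraMap K LL)) ∈ Polynomial.lifts (sig p 1 : LL →+* LL) := by
    rw [Polynomial.lifts_iff_coeff_lifts]
    intro n
    rw [Polynomial.coeff_map]
    have h2 : ((P.coeff n : K) : LL) ∈ (IntermediateField.adjoin kk {DDk}).map (sig p 1) := by
      rw [hmap]
      exact (P.coeff n).2
    obtain ⟨y, -, hy2⟩ := h2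
    exact ⟨y, hy2⟩
  obtain ⟨Q, hQ⟩ := (Polynomial.mem_lifts _).mp hlift
  have hi : Function.Injective (sig p 1 : LL →+* LL) := sig_injective p 1
  refine mem_MM_of_root Q ?_ ?_ ?_
  · rintro rfl
    rw [Polynomial.map_zero] at hQ
    exact hP0 ((Polynomial.map_eq_zero_iff (algebraMap K LL).injective).1 hQ.symm)
  · intro i
    have h2 : ((P.coeff i : K) : LL) ∈ (IntermediateField.adjoin kk {DDk}).map (sig p 1) := by
      rw [hmap]
      exact (P.coeff i).2
    obtain ⟨y, hy1, hy2⟩ := h2
    have h3 : (sig p 1 : LL →+* LL) (Q.coeff i) = algebraMap K LL (P.coeff i) := by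
      rw [← Polynomial.coeff_map, hQ, Polynomial.coeff_map]
    have h4 : Q.coeff i = y := hi (h3.trans hy2.symm)
    rw [h4]
    rw [mem_MM]
    exact isAlgebraic_algebraMap (R := IntermediateField.adjoin kk {DDk}) (A := LL) ⟨y, hy1⟩
  · apply hi
    have h3 := Polynomial.eval_map_apply (p := Q) (sig p 1 : LL →+* LL) F
    rw [hQ, Polynomial.eval_map_algebraMap] at h3
    rw [map_zero, ← h3]
    exact hP

theorem DWN (hPSI : PSI_stmt) : DWN_stmt := by
  intro e
  induction e using Nat.strong_induction_on with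
  | _ e ih =>
    intro F he hF
    by_cases h1 : e = 1
    · rw [h1, sig_one] at hF
      exact hF
    · have hp : e.minFac.Prime := Nat.minFac_prime h1
      obtain ⟨m, hm⟩ := Nat.minFac_dvd e
      have he0 : e ≠ 0 := by rintro rfl; exact absurd he (by decide)
      have hm0 : m ≠ 0 := by rintro rfl; rw [mul_zero] at hm; exact he0 hm
      have hodd : Odd m := by
        rw [hm] at he
        exact (Nat.odd_mul.mp he).2
      have hpo : Odd e.minFac := by
        have h2 : Odd (e.minFac * m) := by rw [← hm]; exact he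
        exact (Nat.odd_mul.mp h2).1
      have hp2 : e.minFac ≠ 2 := by
        intro h
        rw [h] at hpo
        exact absurd hpo (by decide)
      have hlt : m < e := by
        have h3 : 2 ≤ e.minFac := hp.two_le
        calc m < 2 * m := by omega
          _ ≤ e.minFac * m := Nat.mul_le_mul_right _ h3
          _ = e := hm.symm
      have h4 : sig e 1 F = sig e.minFac 1 (sig m 1 F) := by
        rw [sig_sig hp.ne_zero hm0, one_pow, mul_one, ← hm]
      rw [h4] at hF
      exact ih m hlt F hodd (DWN_prime hPSI hp hp2 hF)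

end Pool.Agent.QP
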